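import Pool.Agent.helper358_md.Limit

/-!
# The `p`-metric mean dimension of a sofic action equals its metric mean dimension

Full positive answer to Q1 of MP_9d0111_an.

Given a dynamically generating continuous pseudometric `ρ` and a dense sequence `x_n`, the
pseudometric `ρ'(a,b) = ∑_n 2^{-n-1} |ρ(a,x_n) - ρ(b,x_n)|` is continuous, lies below `ρ`, has the
same zero set as `ρ` (so it is dynamically generating), and `X` is covered by
`exp(O(log(1/ε)^2))` sets of `ρ'`-diameter less than `ε`.  By Markov's inequality two maps at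
`ρ'_1`-distance at most `η = ε^{1+κ}` differ by more than `ε/2` in a proportion at most `2ε^κ` of
the coordinates, so a `ρ'_1`-ball of radius `η` contains at most
`2^d exp(2ε^κ d O(log(1/ε)^2)) = exp(d O(1))` points which are `ε`-separated for `ρ'_∞`.  Hence
`mdim_{Σ,∞}(ρ') ≤ (1+κ) mdim_{Σ,1}(ρ)` for every `κ > 0`.
-/

namespace Pool.Agent.Results.MP_9d0111_an.PMetricMeanDimension

open Filter Topology
open scoped ENNReal
open Pool.Agent.helper358_md

lemma generating_tame {Γ X : Type*} [Group Γ] [MulAction Γ X] [TopologicalSpace X]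
    [CompactSpace X] (ρ : ContPseudo X) (x : ℕ → X) (hx : DenseRange x)
    (h : Generating Γ ρ.toFun) : Generating Γ (tameC ρ x).toFun := by
  intro a b hab
  obtain ⟨s, hs⟩ := h a b hab
  refine ⟨s, ?_⟩
  rcases ((tameC ρ x).nonneg (s • a) (s • b)).lt_or_eq with h1 | h1
  · exact h1
  · have h2 := tame_eq_zero ρ x hx (s • a) (s • b) h1.symm
    linarith

lemma main {Γ : Type*} [Group Γ] (sep : ℝ → ℝ → Prop) (hs1 : ∀ a b, a < b → sep a b)
    (hs2 : ∀ a b, sep a b → a ≤ b) (hs3 : ∀ a b c, sep a b → b ≤ c → sep a c)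
    (A : SoficApprox Γ) (X : Type*) [TopologicalSpace X] [CompactSpace X]
    [TopologicalSpace.MetrizableSpace X] [MulAction Γ X] (p : ℝ≥0∞) (hp : 1 ≤ p) :
    mdimM sep A X p = mdimM sep A X ⊤ := by
  apply le_antisymm
  · unfold mdimM
    refine iInf_mono fun ρ => iInf_mono fun _ => ?_
    apply mdimRho_mono
    intro ε d φ ψ h
    exact hs3 _ _ _ h (rhoP_le_top ρ.toFun ρ.nonneg p hp φ ψ)
  · rcases isEmpty_or_nonempty X with hX | hX
    · unfold mdimM
      refine iInf_mono fun ρ => iInf_mono fun _ => ?_
      apply mdimRho_mono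
      intro ε d φ ψ h
      rcases Nat.eq_zero_or_pos d with hd | hd
      · rw [rhoP_top_of_isEmpty ρ.toFun ρ.nonneg hd p (by intro h; rw [h] at hp; simp at hp)]
        rwa [rhoP_top_of_isEmpty ρ.toFun ρ.nonneg hd ⊤ (by simp)] at h
      · exact hX.elim (φ ⟨0, hd⟩)
    · letI := TopologicalSpace.metrizableSpaceMetric X
      have : TopologicalSpace.SeparableSpace X := inferInstance
      let x := TopologicalSpace.denseSeq X
      have hx : DenseRange x := TopologicalSpace.denseRange_denseSeq X
      conv_rhs => unfold mdimM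
      refine le_iInf fun ρ => le_iInf fun hρ => ?_
      calc mdimM sep A X ⊤ ≤ mdimRho sep A ⊤ (tameC ρ x).toFun :=
            iInf_le_of_le (tameC ρ x) (iInf_le_of_le (generating_tame ρ x hx hρ) le_rfl)
        _ ≤ mdimRho sep A 1 ρ.toFun := mdimRho_top_le sep hs1 hs2 A ρ x hx
        _ ≤ mdimRho sep A p ρ.toFun := by
            apply mdimRho_mono
            intro ε d φ ψ h
            exact hs3 _ _ _ h (rhoP_one_le ρ.toFun ρ.nonneg p hp φ ψ)

/-- For every countable sofic group `Γ`, every sofic approximation sequence `A` of `Γ`, every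
action of `Γ` by homeomorphisms on a compact metrizable space `X` and every `1 ≤ p ≤ ∞`, the
`p`-metric mean dimension equals the metric mean dimension.  The statement is proved for both usual
conventions on `ε`-separated sets (distance at least `ε`, distance larger than `ε`). -/
theorem result {Γ : Type*} [Group Γ] [Countable Γ] (A : SoficApprox Γ) {X : Type*}
    [TopologicalSpace X] [CompactSpace X] [TopologicalSpace.MetrizableSpace X] [MulAction Γ X]
    [ContinuousConstSMul Γ X] (p : ℝ≥0∞) (hp : 1 ≤ p) :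
    mdimM (· ≤ ·) A X p = mdimM (· ≤ ·) A X ⊤ ∧
      mdimM (· < ·) A X p = mdimM (· < ·) A X ⊤ :=
  ⟨main (· ≤ ·) (fun _ _ h => h.le) (fun _ _ h => h) (fun _ _ _ h h' => le_trans h h') A X p hp,
    main (· < ·) (fun _ _ h => h) (fun _ _ h => h.le) (fun _ _ _ h h' => lt_of_lt_of_le h h')
      A X p hp⟩

end Pool.Agent.Results.MP_9d0111_an.PMetricMeanDimension
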